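import Pool.Agent.H3.MFS.Defs
import Pool.Agent.H13.MF.Slim

/-! For a multiplicity-free algebra, of any rank, every class of two-term complexes of projective
modules contains a rigid complex. -/

set_option autoImplicit false

universe u v

namespace Pool.Agent.Results.MP_5504b7_al.LatticePointsRigid

open Pool.Agent.H3.MFS

/-- Let `A` be a finite-dimensional algebra over an infinite field `K` with a complete system
`e` of orthogonal local idempotents (for `A = K Q / I`: the trivial paths). If `A` is MF, then for
all finitely generated projective modules `P`, `Q` there is a rigid homomorphism `f : P → Q`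
(`Hom (f, f[1]) = 0`: every homomorphism `P → Q` has the form `f s + t f` with endomorphisms `s` of
`P` and `t` of `Q`); that is, every lattice point `[Q] - [P]` of `K₀ (proj A)` is rigid. -/
theorem result (K : Type v) [Field K] [Infinite K] (A : Type u) [Ring A] [Algebra K A]
    [FiniteDimensional K A] (n : ℕ) (e : Fin n → A) (he : CompleteOrthogonalIdempotents e)
    (hloc : ∀ i, IsLocalRing (he.idem i).Corner) (hMF : IsMF K e)
    (P Q : Type u) [AddCommGroup P] [Module A P] [AddCommGroup Q] [Module A Q]
    [Module.Finite A P] [Module.Finite A Q] [Module.Projective A P] [Module.Projective A Q] :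
    ∃ f : P →ₗ[A] Q, ∀ h : P →ₗ[A] Q, ∃ (s : P →ₗ[A] P) (t : Q →ₗ[A] Q),
      ∀ x, h x = f (s x) + t (f x) :=
  Pool.Agent.H13.MFS.rigid K A n e he hloc hMF P Q

end Pool.Agent.Results.MP_5504b7_al.LatticePointsRigid
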