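import Pool.Agent.H3.MFS.Defs
import Pool.Agent.H3.MFS.Conv2

/-! The multiplicity-free conjecture. -/

set_option autoImplicit false

universe u v

namespace Pool.Agent.Results.MP_5504b7_al.MFConjecture

open Pool.Agent.H3.MFS

/-- Let `A` be a finite-dimensional algebra over an infinite field `K` with a complete system `e`
of orthogonal local idempotents (for `A = K Q / I`: the trivial paths). Then `A` is
multiplicity-free if and only if for every dimension vector `d` the bricks in `mod (A, d)` are in
finitely many orbits of `GL (d)`, that is, there are only finitely many up to isomorphism. If `K`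
is algebraically closed, then the bricks are the Schur modules (`End M = K`), so this says that `A`
is Schur-representation-finite. -/
theorem result (K : Type v) [Field K] [Infinite K] (A : Type u) [Ring A] [Algebra K A]
    [FiniteDimensional K A] (n : ℕ) (e : Fin n → A) (he : CompleteOrthogonalIdempotents e)
    (hloc : ∀ i, IsLocalRing (he.idem i).Corner) :
    (IsMF K e ↔ FinitelyManyBricks K e) ∧
    (IsAlgClosed K → ∀ (d : Fin n → ℕ) (ρ : A → Matrix (Idx d) (Idx d) K), IsRep e ρ →
      Nonempty (Idx d) →
      (IsBrick ρ ↔ ∀ φ : Matrix (Idx d) (Idx d) K, (∀ a, φ * ρ a = ρ a * φ) →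
        ∃ c : K, φ = c • 1)) :=
  main K A n e he hloc

end Pool.Agent.Results.MP_5504b7_al.MFConjecture
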