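import Pool.Agent.H3.MFS.Defs
import Pool.Agent.H13.MF.Slim

/-! The multiplicity-free conjecture for algebras with at most two simple modules: finitely many
bricks in all dimensions together. -/

set_option autoImplicit false

universe u v

namespace Pool.Agent.Results.MP_5504b7_al.TwoSimples

open Pool.Agent.H3.MFS

/-- Let `A` be a finite-dimensional algebra over an infinite field `K` with a complete system
`e` of orthogonal local idempotents (for `A = K Q / I`: the trivial paths) and with at most two
simple modules up to isomorphism. If `A` is MF, then up to isomorphism there are only finitely many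
bricks (finitely generated nonzero modules all of whose nonzero endomorphisms are bijective): for
some `N` among any `N + 1` bricks there are two isomorphic ones. (If `K` is algebraically closed
these are the Schur modules.) -/
theorem result (K : Type v) [Field K] [Infinite K] (A : Type u) [Ring A] [Algebra K A]
    [FiniteDimensional K A] (n : ℕ) (e : Fin n → A) (he : CompleteOrthogonalIdempotents e)
    (hloc : ∀ i, IsLocalRing (he.idem i).Corner) (hMF : IsMF K e)
    (S₁ S₂ : Type u) [AddCommGroup S₁] [Module A S₁] [AddCommGroup S₂] [Module A S₂]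
    [IsSimpleModule A S₁] [IsSimpleModule A S₂]
    (hS : ∀ (S : Type u) [AddCommGroup S] [Module A S] [IsSimpleModule A S],
      Nonempty (S ≃ₗ[A] S₁) ∨ Nonempty (S ≃ₗ[A] S₂)) :
    ∃ N : ℕ, ∀ (M : Fin (N + 1) → Type u) [∀ i, AddCommGroup (M i)] [∀ i, Module A (M i)]
      [∀ i, Module.Finite A (M i)],
      (∀ i, Nontrivial (M i) ∧ ∀ φ : M i →ₗ[A] M i, φ ≠ 0 → Function.Bijective φ) →
      ∃ i j, i ≠ j ∧ Nonempty (M i ≃ₗ[A] M j) :=
  Pool.Agent.H13.MFS.two K A n e he hloc hMF S₁ S₂ hS

end Pool.Agent.Results.MP_5504b7_al.TwoSimples
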